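import Pool.Agent.H717.PR.Stm

set_option autoImplicit false

/-! `QC2`: the adjacency of a gadget vertex of kind `6, …, 9` and an interval vertex. -/

namespace Pool.Agent.H314.PR.QC2

open Pool.Agent.H717.PR

theorem absmax (X Y τ : ℤ) : |max X Y| ≤ τ ↔ (-τ ≤ X ∨ -τ ≤ Y) ∧ X ≤ τ ∧ Y ≤ τ := by
  rw [abs_le, le_max_iff, max_le_iff]

theorem adj_iff0 (k : ℕ) (p q u v : Lb) (h6 : 6 ≤ k) (h9 : k ≤ 9) :
    (adj (k, (p, q)) (0, (u, v)) = true ∨ adj (0, (u, v)) (k, (p, q)) = true) ↔
      (u = q ∧ v = q) := by
  interval_cases k <;> simp [adj]

theorem adj_iff5 (k : ℕ) (p q u v : Lb) (h6 : 6 ≤ k) (h9 : k ≤ 9) :
    (adj (k, (p, q)) (5, (u, v)) = true ∨ adj (5, (u, v)) (k, (p, q)) = true) ↔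
      (u = p ∧ v = q) := by
  interval_cases k <;> simp [adj]

theorem t_qc2 (h : S_mem) : S_qc2 := by
  intro I α β ν τ N S hM hS w hw z hz h6 h9 hz05
  obtain ⟨k, p, q⟩ := w
  obtain ⟨k', u, v⟩ := z
  have hwm := (h I _).1 hw
  have hzm := (h I _).1 hz
  simp only at h6 h9 hz05 hwm hzm
  have hpos := hM.pos
  -- the data of `w`
  obtain ⟨hp, hq, hf⟩ : p ∈ base I ∧ q ∈ base I ∧ far I p q = true := by
    rcases hwm with h | h | h
    · omega
    · omega
    · exact h.2.2
  have hfar := hM.far p hp q hq hf
  have hνp := hM.nu1 p hp
  have hSpos : 0 ≤ S := by omega
  have key : ∀ x y : ℤ, x < y → S * x + S ≤ S * y := by
    intro x y hxy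
    nlinarith
  have h4 : ¬ k ≤ 4 := by omega
  rw [absmax]
  rcases hz05 with rfl | rfl
  · -- an interval of kind `0`
    obtain ⟨huv, hu⟩ : u = v ∧ u ∈ base I := by
      rcases hzm with h | h | h
      · exact h.2
      · omega
      · omega
    subst huv
    rw [adj_iff0 k p q u u h6 h9]
    simp only [ol, Pool.Agent.H717.PR.or, lf, rt, h4, h9, if_true, if_false]
    have hab := hM.lt q hq
    have kab := key _ _ hab
    by_cases hc : β p < α q
    · simp only [hc, if_true]
      by_cases huq : u = q
      · subst huq
        constructor
        · intro _; omega
        · intro _; exact ⟨rfl, rfl⟩
      · constructor
        · intro hh; exact absurd hh.1 huq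
        · intro hh
          exfalso
          have h1 := hM.aa u hu q hq huq
          have h2 := hM.ab q hq u hu
          rcases lt_or_gt_of_ne h1 with h1 | h1
          · have := key _ _ h1
            rcases lt_or_gt_of_ne h2 with h2 | h2
            · have := key _ _ h2
              omega
            · have := key _ _ h2
              omega
          · have := key _ _ h1
            omega
    · have hc' : β q < α p := by
        rcases hfar with h | h
        · exact absurd h hc
        · exact h
      simp only [hc, if_false]
      by_cases huq : u = q
      · subst huq
        constructor
        · intro _; omega
        · intro _; exact ⟨rfl, rfl⟩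
      · constructor
        · intro hh; exact absurd hh.1 huq
        · intro hh
          exfalso
          have h1 := hM.bb u hu q hq huq
          have h2 := hM.ab u hu q hq
          rcases lt_or_gt_of_ne h1 with h1 | h1
          · have := key _ _ h1
            omega
          · have := key _ _ h1
            rcases lt_or_gt_of_ne h2 with h2 | h2
            · have := key _ _ h2
              omega
            · have := key _ _ h2
              omega
  · -- an interval of kind `5`
    obtain ⟨hu, hv, hf'⟩ : u ∈ base I ∧ v ∈ base I ∧ far I u v = true := by
      rcases hzm with h | h | h
      · omega
      · omega
      · exact h.2.2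
    have hfar' := hM.far u hu v hv hf'
    have hνu := hM.nu1 u hu
    rw [adj_iff5 k p q u v h6 h9]
    have h50 : ¬ (5 : ℕ) = 0 := by omega
    simp only [ol, Pool.Agent.H717.PR.or, lf, rt, h4, h9, h50, if_true, if_false]
    by_cases hc : β p < α q
    · have kc := key _ _ hc
      have tc := hM.tau q hq p hp
      simp only [hc, if_true]
      by_cases hd : β u < α v
      · have kd := key _ _ hd
        have td := hM.tau v hv u hu
        simp only [hd, if_true]
        by_cases hvq : v = q
        · subst hvq
          by_cases hup : u = p
          · subst hup
            constructor
            · intro _; omega
            · intro _; exact ⟨rfl, rfl⟩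
          · constructor
            · intro hh; exact absurd hh.1 hup
            · intro hh
              exfalso
              have h1 := hM.nu2 u hu p hp hup
              omega
        · constructor
          · intro hh; exact absurd hh.2 hvq
          · intro hh
            exfalso
            have h1 := hM.aa v hv q hq hvq
            have h2 := hM.ab q hq u hu
            rcases lt_or_gt_of_ne h1 with h1 | h1
            · have := key _ _ h1
              omega
            · have := key _ _ h1
              rcases lt_or_gt_of_ne h2 with h2 | h2
              · have := key _ _ h2
                omega
              · have := key _ _ h2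
                omega
      · have hd' : β v < α u := by
          rcases hfar' with h | h
          · exact absurd h hd
          · exact h
        have kd := key _ _ hd'
        have td := hM.tau u hu v hv
        simp only [hd, if_false]
        constructor
        · rintro ⟨rfl, rfl⟩
          exact absurd hc hd
        · intro hh
          exfalso
          by_cases huq : u = q
          · subst huq
            omega
          · have h1 := hM.aa u hu q hq huq
            have h2 := hM.ab q hq v hv
            rcases lt_or_gt_of_ne h1 with h1 | h1
            · have := key _ _ h1
              omega
            · have := key _ _ h1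
              rcases lt_or_gt_of_ne h2 with h2 | h2
              · have := key _ _ h2
                omega
              · have := key _ _ h2
                omega
    · have hc' : β q < α p := by
        rcases hfar with h | h
        · exact absurd h hc
        · exact h
      have kc := key _ _ hc'
      have tc := hM.tau p hp q hq
      simp only [hc, if_false]
      by_cases hd : β u < α v
      · have kd := key _ _ hd
        have td := hM.tau v hv u hu
        simp only [hd, if_true]
        constructor
        · rintro ⟨rfl, rfl⟩
          exact absurd hd hc
        · intro hh
          exfalso
          by_cases huq : u = q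
          · subst huq
            omega
          · have h1 := hM.bb u hu q hq huq
            have h2 := hM.ab v hv q hq
            rcases lt_or_gt_of_ne h1 with h1 | h1
            · have := key _ _ h1
              rcases lt_or_gt_of_ne h2 with h2 | h2
              · have := key _ _ h2
                omega
              · have := key _ _ h2
                omega
            · have := key _ _ h1
              omega
      · have hd' : β v < α u := by
          rcases hfar' with h | h
          · exact absurd h hd
          · exact h
        have kd := key _ _ hd'
        have td := hM.tau u hu v hv
        simp only [hd, if_false]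
        by_cases hvq : v = q
        · subst hvq
          by_cases hup : u = p
          · subst hup
            constructor
            · intro _; omega
            · intro _; exact ⟨rfl, rfl⟩
          · constructor
            · intro hh; exact absurd hh.1 hup
            · intro hh
              exfalso
              have h1 := hM.nu2 u hu p hp hup
              omega
        · constructor
          · intro hh; exact absurd hh.2 hvq
          · intro hh
            exfalso
            have h1 := hM.bb v hv q hq hvq
            have h2 := hM.ab u hu q hq
            rcases lt_or_gt_of_ne h1 with h1 | h1
            · have := key _ _ h1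
              rcases lt_or_gt_of_ne h2 with h2 | h2
              · have := key _ _ h2
                omega
              · have := key _ _ h2
                omega
            · have := key _ _ h1
              rcases lt_or_gt_of_ne h2 with h2 | h2
              · have := key _ _ h2
                omega
              · have := key _ _ h2
                omega

end Pool.Agent.H314.PR.QC2
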